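import Pool.Agent.H677_SC.Basic

set_option autoImplicit false

open Finset

namespace Pool.Agent.Results.MP_f96d9d_nt.FalseAtSevenQ1

/-- The generalized central trinomial coefficient `T_n(b, c)`, by its explicit formula. -/
def T (n : ℕ) (b c : ℤ) : ℤ :=
  ∑ j ∈ range (n / 2 + 1), (n.choose (2 * j) : ℤ) * ((2 * j).choose j : ℤ) * c ^ j * b ^ (n - 2 * j)

/-- `A₁(p) = ∑_{k < p} T_k(18, 49)³ / 512 ^ k`. -/
def A₁ (p : ℕ) : ℚ := ∑ k ∈ range p, (T k 18 49 : ℚ) ^ 3 / 512 ^ k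

/-- `A₂(p) = ∑_{k < p} T_k(18, 49)³ / 4096 ^ k`. -/
def A₂ (p : ℕ) : ℚ := ∑ k ∈ range p, (T k 18 49 : ℚ) ^ 3 / 4096 ^ k

/-- `u ≡ v` modulo `p ^ 2` in the rationals with denominator prime to `p`: the difference is
`p ^ 2` times a rational number whose denominator is not divisible by `p`. -/
def Congr (p : ℕ) (u v : ℚ) : Prop := ∃ r : ℚ, ¬ p ∣ r.den ∧ u - v = (p : ℚ) ^ 2 * r

/-- The assertion of Q1 for the prime `p`. -/
def Assertion (p : ℕ) : Prop :=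
  Congr p ((jacobiSym 2 p : ℚ) * A₁ p) (A₂ p) ∧
  (p % 4 = 1 → ∀ x y : ℤ, (p : ℤ) = x ^ 2 + y ^ 2 → Odd x → Even y →
    Congr p (A₂ p) (4 * (x : ℚ) ^ 2 - 2 * p)) ∧
  (p % 4 = 3 → Congr p (A₂ p) 0)

/-- Q1 is false: the assertion fails for `p = 7`, where `A₂(7)` is not `≡ 0` modulo `49`. -/
theorem result : ¬ ∀ p : ℕ, p.Prime → 3 < p → Assertion p := by
  intro h
  obtain ⟨r, hr, he⟩ := (h 7 (by norm_num) (by norm_num)).2.2 (by norm_num)
  have key := Pool.Agent.H677_SC.dvd_of_den (p := 7) (m := 2) (by norm_num) hr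
    (d := 4096 ^ 6) (N := 21232405354957642090750400) (by
      rw [← he]
      norm_num [A₂, T, Finset.sum_range_succ, Nat.choose])
  revert key
  norm_num

end Pool.Agent.Results.MP_f96d9d_nt.FalseAtSevenQ1
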